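import Pool.Agent.helper24.BP.Defs

/-!
# Module M5: the density restoring partition
-/

namespace Pool.Agent.helper8.BP

open Pool.Agent.helper24.BP Finset Classical

theorem card_pt (q : ℕ) [Fact q.Prime] : Fintype.card (Pt q) = q ^ 2 := by
  simp [Pt, ZMod.card, pow_two]

/-- sets constant on `F` are small -/
theorem card_le_of_agree {N q : ℕ} [Fact q.Prime] (F : Finset (Fin N)) (p : Finset (Asg N q))
    (h : ∀ x ∈ p, ∀ x' ∈ p, ∀ i ∈ F, x i = x' i) : p.card ≤ (q ^ 2) ^ (N - F.card) := by
  have h1 : p.card ≤ (univ : Finset ({i : Fin N // i ∉ F} → Pt q)).card := by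
    apply Finset.card_le_card_of_injOn (fun x i => x i.1) (fun _ _ => mem_univ _)
    intro x hx x' hx' hxx
    funext i
    by_cases hi : i ∈ F
    · exact h x hx x' hx' i hi
    · exact congrFun hxx ⟨i, hi⟩
  refine h1.trans ?_
  rw [Finset.card_univ, Fintype.card_fun, card_pt]
  have : Fintype.card {i : Fin N // i ∉ F} = N - F.card := by
    rw [Fintype.card_subtype_compl]
    simp
  rw [this]

theorem decompose {N q : ℕ} [Fact q.Prime] {ξ : ℕ} (hξ : 1 ≤ ξ) (m : ℕ) (F0 : Finset (Fin N))
    (a : Finset (Asg N q)) (hag : ∀ x ∈ a, ∀ x' ∈ a, ∀ i ∈ F0, x i = x' i) :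
    ∃ (P : Finset (Finset (Asg N q))) (lo : Finset (Asg N q)),
      (∀ p ∈ P, p ⊆ a ∧ ∃ F : Finset (Fin N), F0 ⊆ F ∧ F.card ≤ F0.card + m ∧ Dense ξ F p) ∧
      (∀ p ∈ P, ∀ p' ∈ P, p ≠ p' → Disjoint p p') ∧
      (∀ x ∈ a, x ∈ lo ∨ ∃ p ∈ P, x ∈ p) ∧
      lo.card * ξ ^ m ≤ (q ^ 2) ^ (N - F0.card) := by
  have hq : 0 < q := (Fact.out : q.Prime).pos
  have hR : 0 < q ^ 2 := by positivity
  induction hn : a.card using Nat.strong_induction_on generalizing a with
  | _ n ih =>
    by_cases hbig : a.card * ξ ^ m ≤ (q ^ 2) ^ (N - F0.card)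
    · refine ⟨∅, a, by simp, by simp, fun x hx => Or.inl hx, hbig⟩
    · push Not at hbig
      have hapos : 0 < a.card := by
        rcases Nat.eq_zero_or_pos a.card with h0 | h0
        · rw [h0, zero_mul] at hbig
          exact absurd hbig (Nat.not_lt_zero _)
        · exact h0
      -- the admissible sets
      let good : Finset (Fin N) → Prop := fun I => Disjoint I F0 ∧ ∃ v : Asg N q,
        ξ ^ I.card * a.card ≤ (a.filter fun x => ∀ i ∈ I, x i = v i).card * (q ^ 2) ^ I.card
      obtain ⟨x0, hx0⟩ := Finset.card_pos.mp hapos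
      have hne : ((univ : Finset (Finset (Fin N))).filter good).Nonempty := by
        refine ⟨∅, ?_⟩
        rw [mem_filter]
        refine ⟨mem_univ _, disjoint_empty_left _, x0, ?_⟩
        simp
      obtain ⟨I, hI, hmax⟩ := Finset.exists_max_image _ Finset.card hne
      rw [mem_filter] at hI
      obtain ⟨-, hIF, v, hv⟩ := hI
      set p : Finset (Asg N q) := a.filter fun x => ∀ i ∈ I, x i = v i with hp
      have hpa : p ⊆ a := filter_subset _ _
      have hppos : 0 < p.card := by
        rcases Nat.eq_zero_or_pos p.card with h0 | h0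
        · rw [h0, zero_mul] at hv
          have : 0 < ξ ^ I.card * a.card := by positivity
          omega
        · exact h0
      have hpagree : ∀ x ∈ p, ∀ x' ∈ p, ∀ i ∈ F0 ∪ I, x i = x' i := by
        intro x hx x' hx' i hi
        rcases Finset.mem_union.mp hi with hi | hi
        · exact hag x (hpa hx) x' (hpa hx') i hi
        · rw [(mem_filter.mp hx).2 i hi, (mem_filter.mp hx').2 i hi]
      have hcardF : (F0 ∪ I).card = F0.card + I.card :=
        card_union_of_disjoint hIF.symm
      have hFN : F0.card + I.card ≤ N := by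
        rw [← hcardF]
        exact (card_le_univ _).trans (by simp)
      have hIm : I.card ≤ m := by
        by_contra hcon
        push Not at hcon
        have h1 := card_le_of_agree (F0 ∪ I) p hpagree
        rw [hcardF] at h1
        have h2 : p.card * (q ^ 2) ^ I.card ≤ (q ^ 2) ^ (N - F0.card) := by
          calc p.card * (q ^ 2) ^ I.card
              ≤ (q ^ 2) ^ (N - (F0.card + I.card)) * (q ^ 2) ^ I.card :=
                Nat.mul_le_mul_right _ h1
            _ = (q ^ 2) ^ (N - F0.card) := by
                rw [← pow_add]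
                congr 1
                omega
        have h3 : ξ ^ m * a.card ≤ ξ ^ I.card * a.card :=
          Nat.mul_le_mul_right _ (Nat.pow_le_pow_right hξ hcon.le)
        have h4 : a.card * ξ ^ m = ξ ^ m * a.card := mul_comm _ _
        omega
      have hdense : Dense ξ (F0 ∪ I) p := by
        refine ⟨Finset.card_pos.mp hppos, hpagree, ?_⟩
        intro K hK u
        by_contra hcon
        push Not at hcon
        have hKne : K.card ≠ 0 := by
          intro h0
          have hK0 : K = ∅ := Finset.card_eq_zero.mp h0
          subst hK0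
          simp at hcon
        have hKI : Disjoint I K :=
          (Finset.disjoint_of_subset_right subset_union_right hK).symm
        have hKF0 : Disjoint K F0 := Finset.disjoint_of_subset_right subset_union_left hK
        have hgood : good (I ∪ K) := by
          refine ⟨disjoint_union_left.mpr ⟨hIF, hKF0⟩, fun i => if i ∈ I then v i else u i, ?_⟩
          have hset : (a.filter fun x => ∀ i ∈ I ∪ K, x i = if i ∈ I then v i else u i) =
              p.filter fun x => ∀ i ∈ K, x i = u i := by
            ext x
            simp only [hp, mem_filter, mem_union]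
            constructor
            · rintro ⟨h1, h2⟩
              refine ⟨⟨h1, fun i hi => ?_⟩, fun i hi => ?_⟩
              · have := h2 i (Or.inl hi)
                rwa [if_pos hi] at this
              · have := h2 i (Or.inr hi)
                rwa [if_neg (fun h => (Finset.disjoint_left.mp hKI h) hi)] at this
            · rintro ⟨⟨h1, h2⟩, h3⟩
              refine ⟨h1, fun i hi => ?_⟩
              by_cases hiI : i ∈ I
              · rw [if_pos hiI]
                exact h2 i hiI
              · rw [if_neg hiI]
                exact h3 i (hi.resolve_left hiI)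
          rw [hset, card_union_of_disjoint hKI, pow_add, pow_add]
          calc ξ ^ I.card * ξ ^ K.card * a.card = ξ ^ K.card * (ξ ^ I.card * a.card) := by ring
            _ ≤ ξ ^ K.card * (p.card * (q ^ 2) ^ I.card) := Nat.mul_le_mul_left _ hv
            _ = (ξ ^ K.card * p.card) * (q ^ 2) ^ I.card := by ring
            _ ≤ ((p.filter fun x => ∀ i ∈ K, x i = u i).card * (q ^ 2) ^ K.card) *
                (q ^ 2) ^ I.card := Nat.mul_le_mul_right _ hcon.le
            _ = _ := by ring
        have h5 := hmax (I ∪ K) (by rw [mem_filter]; exact ⟨mem_univ _, hgood⟩)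
        rw [card_union_of_disjoint hKI] at h5
        omega
      -- induction
      have hlt : (a \ p).card < n := by
        rw [← hn, Finset.card_sdiff_of_subset hpa]
        omega
      obtain ⟨P, lo, h1, h2, h3, h4⟩ := ih (a \ p).card hlt (a \ p)
        (fun x hx x' hx' i hi => hag x (sdiff_subset hx) x' (sdiff_subset hx') i hi) rfl
      have hdis : ∀ p' ∈ P, Disjoint p p' := fun p' hp' =>
        Finset.disjoint_of_subset_right (h1 p' hp').1 disjoint_sdiff
      refine ⟨insert p P, lo, ?_, ?_, ?_, h4⟩
      · intro p' hp'
        rcases Finset.mem_insert.mp hp' with rfl | hp'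
        · exact ⟨hpa, F0 ∪ I, subset_union_left, by rw [hcardF]; omega, hdense⟩
        · exact ⟨(h1 p' hp').1.trans sdiff_subset, (h1 p' hp').2⟩
      · intro p' hp' p'' hp'' hne'
        rcases Finset.mem_insert.mp hp' with h' | h'
        · rcases Finset.mem_insert.mp hp'' with h'' | h''
          · exact absurd (h'.trans h''.symm) hne'
          · rw [h']; exact hdis _ h''
        · rcases Finset.mem_insert.mp hp'' with h'' | h''
          · rw [h'']; exact (hdis _ h').symm
          · exact h2 _ h' _ h'' hne'
      · intro x hx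
        by_cases hxp : x ∈ p
        · exact Or.inr ⟨p, mem_insert_self _ _, hxp⟩
        · rcases h3 x (mem_sdiff.mpr ⟨hx, hxp⟩) with h | ⟨p', hp', hxp'⟩
          · exact Or.inl h
          · exact Or.inr ⟨p', mem_insert_of_mem hp', hxp'⟩

end Pool.Agent.helper8.BP
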