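import Pool.Agent.helper24.BP.Defs

/-!
# Module M8: rectangles of a deterministic machine
-/

namespace Pool.Agent.helper8.BP

open Pool.Agent.helper24.BP Finset Classical

/-- **M8a** -/
theorem rect {N q : ℕ} {Q : Type} (M : DMach N q Q) {r : ℕ} (ℓ : ℕ) (σ : Fin r → Bool)
    (z z' : Inp N q) (SU SV : Finset (Fin N))
    (hn : ∀ p : ℕ, p ≤ r → M.run z (p * ℓ) = M.run z' (p * ℓ))
    (hU : Disjoint SU (RU M ℓ σ z')) (hV : Disjoint SV (RV M ℓ σ z))
    (hx : ∀ i ∉ SU, z.1 i = z'.1 i) (hy : ∀ j ∉ SV, z.2 j = z'.2 j) :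
    (∀ p : ℕ, p ≤ r → M.run (z.1, z'.2) (p * ℓ) = M.run z (p * ℓ)) ∧
      RU M ℓ σ (z.1, z'.2) = RU M ℓ σ z' ∧ RV M ℓ σ (z.1, z'.2) = RV M ℓ σ z := by
  -- the segments of colour `true` follow `z`
  have ht : ∀ p : Fin r, σ p = true → M.run (z.1, z'.2) (p * ℓ) = M.run z (p * ℓ) →
      ∀ s : ℕ, s ≤ ℓ → M.run (z.1, z'.2) (p * ℓ + s) = M.run z (p * ℓ + s) := by
    intro p hp h0 s
    induction s with
    | zero => intro _; simpa using h0
    | succ s ih =>
      intro hs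
      have ih' := ih (by omega)
      show M.step (M.run (z.1, z'.2) (p * ℓ + s)) (z.1, z'.2) = M.step (M.run z (p * ℓ + s)) z
      rw [ih']
      apply M.loc
      · intro i _; rfl
      · intro j hj
        have hjR : j ∈ RV M ℓ σ z := by
          simp only [RV, mem_filter, mem_univ, true_and]
          exact ⟨p, ⟨s, by omega⟩, hp, hj⟩
        have hjS : j ∉ SV := fun h => (Finset.disjoint_left.mp hV h) hjR
        exact (hy j hjS).symm
  have hf : ∀ p : Fin r, σ p = false → M.run (z.1, z'.2) (p * ℓ) = M.run z' (p * ℓ) →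
      ∀ s : ℕ, s ≤ ℓ → M.run (z.1, z'.2) (p * ℓ + s) = M.run z' (p * ℓ + s) := by
    intro p hp h0 s
    induction s with
    | zero => intro _; simpa using h0
    | succ s ih =>
      intro hs
      have ih' := ih (by omega)
      show M.step (M.run (z.1, z'.2) (p * ℓ + s)) (z.1, z'.2) = M.step (M.run z' (p * ℓ + s)) z'
      rw [ih']
      apply M.loc
      · intro i hi
        have hiR : i ∈ RU M ℓ σ z' := by
          simp only [RU, mem_filter, mem_univ, true_and]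
          exact ⟨p, ⟨s, by omega⟩, hp, hi⟩
        have hiS : i ∉ SU := fun h => (Finset.disjoint_left.mp hU h) hiR
        exact hx i hiS
      · intro j _; rfl
  have hmain : ∀ p : ℕ, p ≤ r → M.run (z.1, z'.2) (p * ℓ) = M.run z (p * ℓ) := by
    intro p
    induction p with
    | zero => intro _; simp [DMach.run]
    | succ p ih =>
      intro hp
      have ih' := ih (by omega)
      have e : (p + 1) * ℓ = p * ℓ + ℓ := by ring
      rcases hσ : σ ⟨p, by omega⟩ with _ | _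
      · have := hf ⟨p, by omega⟩ hσ (by
          show M.run (z.1, z'.2) (p * ℓ) = M.run z' (p * ℓ)
          rw [ih', hn p (by omega)]) ℓ le_rfl
        have h2 : M.run (z.1, z'.2) (p * ℓ + ℓ) = M.run z' (p * ℓ + ℓ) := this
        rw [hn (p + 1) hp, e, h2]
      · have := ht ⟨p, by omega⟩ hσ ih' ℓ le_rfl
        have h2 : M.run (z.1, z'.2) (p * ℓ + ℓ) = M.run z (p * ℓ + ℓ) := this
        rw [e, h2]
  refine ⟨hmain, ?_, ?_⟩
  · ext i
    simp only [RU, mem_filter, mem_univ, true_and]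
    constructor
    · rintro ⟨p, s, hp, h⟩
      refine ⟨p, s, hp, ?_⟩
      rw [hf p hp (by rw [hmain p p.2.le, hn p p.2.le]) s s.2.le] at h
      exact h
    · rintro ⟨p, s, hp, h⟩
      refine ⟨p, s, hp, ?_⟩
      rw [hf p hp (by rw [hmain p p.2.le, hn p p.2.le]) s s.2.le]
      exact h
  · ext j
    simp only [RV, mem_filter, mem_univ, true_and]
    constructor
    · rintro ⟨p, s, hp, h⟩
      refine ⟨p, s, hp, ?_⟩
      rw [ht p hp (hmain p p.2.le) s s.2.le] at h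
      exact h
    · rintro ⟨p, s, hp, h⟩
      refine ⟨p, s, hp, ?_⟩
      rw [ht p hp (hmain p p.2.le) s s.2.le]
      exact h

/-- the type of partial assignments off a set of size `n0` -/
abbrev Part (N q n0 : ℕ) : Type :=
  Σ S : {S : Finset (Fin N) // S.card = n0}, ({i : Fin N // i ∉ S.1} → Pt q)

/-- restriction of an assignment -/
def mkPart {N q n0 : ℕ} (S : {S : Finset (Fin N) // S.card = n0}) (x : Asg N q) : Part N q n0 :=
  ⟨S, fun i => x i.1⟩

theorem mkPart_fst {N q n0 : ℕ} {κ : Part N q n0} {S : {S : Finset (Fin N) // S.card = n0}}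
    {x : Asg N q} (h : mkPart S x = κ) : κ.1 = S := by subst h; rfl

theorem mkPart_snd {N q n0 : ℕ} {κ : Part N q n0} {S : {S : Finset (Fin N) // S.card = n0}}
    {x : Asg N q} (h : mkPart S x = κ) (i : Fin N) (hi : i ∉ κ.1.1) : κ.2 ⟨i, hi⟩ = x i := by
  subst h; rfl

theorem card_part {N q n0 : ℕ} [Fact q.Prime] :
    Fintype.card (Part N q n0) = N.choose n0 * (q ^ 2) ^ (N - n0) := by
  rw [Fintype.card_sigma]
  have h1 : ∀ S : {S : Finset (Fin N) // S.card = n0},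
      Fintype.card ({i : Fin N // i ∉ S.1} → Pt q) = (q ^ 2) ^ (N - n0) := by
    intro S
    rw [Fintype.card_fun, Fintype.card_subtype_compl]
    have : Fintype.card (Pt q) = q ^ 2 := by simp [Pt, ZMod.card, pow_two]
    rw [this]
    simp [S.2]
  rw [Finset.sum_congr rfl (fun S _ => h1 S), Finset.sum_const, Finset.card_univ, smul_eq_mul]
  congr 1
  rw [Fintype.card_subtype]
  have : (univ : Finset (Finset (Fin N))).filter (fun S => S.card = n0) =
      (univ : Finset (Fin N)).powersetCard n0 := by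
    ext S; simp
  rw [this, Finset.card_powersetCard, Finset.card_univ, Fintype.card_fin]

/-- **M8b** -/
theorem exists_rectangles {N q : ℕ} [Fact q.Prime] {Q : Type} [Fintype Q] (M : DMach N q Q)
    {r : ℕ} (ℓ : ℕ) (σ : Fin r → Bool) {n0 : ℕ} (hn0 : n0 ≤ N) :
    ∃ (ι : Type) (_ : Fintype ι) (a b : ι → Finset (Asg N q)) (SU SV : ι → Finset (Fin N)),
      Fintype.card ι ≤ Fintype.card Q ^ (r + 1) * (N.choose n0 * (q ^ 2) ^ (N - n0)) ^ 2 ∧
      (∀ κ, (SU κ).card = n0 ∧ (SV κ).card = n0) ∧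
      (∀ κ, ∀ x ∈ a κ, ∀ x' ∈ a κ, ∀ i ∉ SU κ, x i = x' i) ∧
      (∀ κ, ∀ y ∈ b κ, ∀ y' ∈ b κ, ∀ j ∉ SV κ, y j = y' j) ∧
      (∀ κ κ', κ ≠ κ' → Disjoint (a κ ×ˢ b κ) (a κ' ×ˢ b κ')) ∧
      ∀ z : Inp N q, (∃ κ, z ∈ a κ ×ˢ b κ) ↔
        M.acc (M.run z (r * ℓ)) ∧ n0 ≤ (RU M ℓ σ z)ᶜ.card ∧ n0 ≤ (RV M ℓ σ z)ᶜ.card := by
  -- selection of subsets of size `n0`
  have hsel : ∃ sel : Finset (Fin N) → {S : Finset (Fin N) // S.card = n0},
      ∀ F : Finset (Fin N), n0 ≤ F.card → (sel F).1 ⊆ F := by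
    have h : ∀ F : Finset (Fin N), ∃ S : {S : Finset (Fin N) // S.card = n0},
        n0 ≤ F.card → S.1 ⊆ F := by
      intro F
      by_cases hF : n0 ≤ F.card
      · obtain ⟨S, hS, hc⟩ := Finset.exists_subset_card_eq hF
        exact ⟨⟨S, hc⟩, fun _ => hS⟩
      · obtain ⟨S, -, hc⟩ := Finset.exists_subset_card_eq
          (s := (univ : Finset (Fin N))) (n := n0) (by simpa using hn0)
        exact ⟨⟨S, hc⟩, fun h => absurd h hF⟩
    choose sel hsel using h
    exact ⟨sel, hsel⟩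
  obtain ⟨sel, hsel⟩ := hsel
  let good : Inp N q → Prop := fun z =>
    M.acc (M.run z (r * ℓ)) ∧ n0 ≤ (RU M ℓ σ z)ᶜ.card ∧ n0 ≤ (RV M ℓ σ z)ᶜ.card
  let key : Inp N q → (Fin (r + 1) → Q) × Part N q n0 × Part N q n0 := fun z =>
    (fun p => M.run z (p * ℓ), mkPart (sel (RU M ℓ σ z)ᶜ) z.1, mkPart (sel (RV M ℓ σ z)ᶜ) z.2)
  let a : (Fin (r + 1) → Q) × Part N q n0 × Part N q n0 → Finset (Asg N q) := fun κ =>
    univ.filter fun x => ∃ y, good (x, y) ∧ key (x, y) = κ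
  let b : (Fin (r + 1) → Q) × Part N q n0 × Part N q n0 → Finset (Asg N q) := fun κ =>
    univ.filter fun y => ∃ x, good (x, y) ∧ key (x, y) = κ
  have hkey1 : ∀ z κ, key z = κ → mkPart (sel (RU M ℓ σ z)ᶜ) z.1 = κ.2.1 := by
    intro z κ h; rw [← h]
  have hkey2 : ∀ z κ, key z = κ → mkPart (sel (RV M ℓ σ z)ᶜ) z.2 = κ.2.2 := by
    intro z κ h; rw [← h]
  have hkey0 : ∀ z κ, key z = κ → (fun p : Fin (r + 1) => M.run z (p * ℓ)) = κ.1 := by
    intro z κ h; rw [← h]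
  have hR : ∀ κ, ∀ z ∈ a κ ×ˢ b κ, good z ∧ key z = κ := by
    rintro κ ⟨x, y⟩ hz
    obtain ⟨h1, h2⟩ := Finset.mem_product.mp hz
    obtain ⟨-, y1, hg1, hk1⟩ := mem_filter.mp h1
    obtain ⟨-, x1, hg2, hk2⟩ := mem_filter.mp h2
    simp only at hg1 hk1 hg2 hk2
    have eU1 := mkPart_fst (hkey1 _ _ hk1)
    have eU2 := mkPart_fst (hkey1 _ _ hk2)
    have eV1 := mkPart_fst (hkey2 _ _ hk1)
    have eV2 := mkPart_fst (hkey2 _ _ hk2)
    have hr := rect M ℓ σ (x, y1) (x1, y) κ.2.1.1.1 κ.2.2.1.1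
      (by
        intro p hp
        have e1 := congrFun (hkey0 _ _ hk1) ⟨p, by omega⟩
        have e2 := congrFun (hkey0 _ _ hk2) ⟨p, by omega⟩
        simp only at e1 e2
        rw [e1, e2])
      (by
        rw [eU2]
        have := hsel _ hg2.2.1
        exact Finset.disjoint_of_subset_left this (disjoint_compl_left))
      (by
        rw [eV1]
        have := hsel _ hg1.2.2
        exact Finset.disjoint_of_subset_left this (disjoint_compl_left))
      (by
        intro i hi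
        show x i = x1 i
        exact (mkPart_snd (hkey1 _ _ hk1) i hi).symm.trans (mkPart_snd (hkey1 _ _ hk2) i hi))
      (by
        intro j hj
        show y1 j = y j
        exact (mkPart_snd (hkey2 _ _ hk1) j hj).symm.trans (mkPart_snd (hkey2 _ _ hk2) j hj))
    obtain ⟨hr1, hr2, hr3⟩ := hr
    have hr1' : ∀ p : ℕ, p ≤ r → M.run (x, y) (p * ℓ) = M.run (x, y1) (p * ℓ) := hr1
    have hr2' : RU M ℓ σ (x, y) = RU M ℓ σ (x1, y) := hr2
    have hr3' : RV M ℓ σ (x, y) = RV M ℓ σ (x, y1) := hr3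
    refine ⟨⟨?_, ?_, ?_⟩, ?_⟩
    · rw [hr1' r le_rfl]; exact hg1.1
    · rw [hr2']; exact hg2.2.1
    · rw [hr3']; exact hg1.2.2
    · have e0 : (fun p : Fin (r + 1) => M.run (x, y) (p * ℓ)) = κ.1 := by
        rw [← hkey0 _ _ hk1]
        funext p
        exact hr1' p (by omega)
      have e1 : mkPart (sel (RU M ℓ σ (x, y))ᶜ) x = κ.2.1 := by
        rw [← hkey1 _ _ hk1, hr2', ← eU2, eU1]
      have e2 : mkPart (sel (RV M ℓ σ (x, y))ᶜ) y = κ.2.2 := by
        rw [← hkey2 _ _ hk2, hr3', ← eV1, eV2]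
      show (_, _, _) = κ
      rw [e0, e1, e2]
  refine ⟨(Fin (r + 1) → Q) × Part N q n0 × Part N q n0, inferInstance, a, b,
    fun κ => κ.2.1.1.1, fun κ => κ.2.2.1.1, ?_, ?_, ?_, ?_, ?_, ?_⟩
  · rw [Fintype.card_prod, Fintype.card_prod, Fintype.card_fun, Fintype.card_fin, card_part,
      ← pow_two]
  · intro κ
    exact ⟨κ.2.1.1.2, κ.2.2.1.2⟩
  · intro κ x hx x' hx' i hi
    obtain ⟨-, y1, -, hk1⟩ := mem_filter.mp hx
    obtain ⟨-, y2, -, hk2⟩ := mem_filter.mp hx'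
    exact (mkPart_snd (hkey1 _ _ hk1) i hi).symm.trans (mkPart_snd (hkey1 _ _ hk2) i hi)
  · intro κ y hy y' hy' j hj
    obtain ⟨-, x1, -, hk1⟩ := mem_filter.mp hy
    obtain ⟨-, x2, -, hk2⟩ := mem_filter.mp hy'
    exact (mkPart_snd (hkey2 _ _ hk1) j hj).symm.trans (mkPart_snd (hkey2 _ _ hk2) j hj)
  · intro κ κ' hne
    rw [Finset.disjoint_left]
    intro z hz hz'
    exact hne ((hR κ z hz).2.symm.trans (hR κ' z hz').2)
  · intro z
    constructor
    · rintro ⟨κ, hz⟩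
      exact (hR κ z hz).1
    · intro hz
      refine ⟨key z, Finset.mem_product.mpr ⟨?_, ?_⟩⟩
      · exact mem_filter.mpr ⟨mem_univ _, z.2, hz, rfl⟩
      · exact mem_filter.mpr ⟨mem_univ _, z.1, hz, rfl⟩

end Pool.Agent.helper8.BP
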