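import Pool.Agent.helper24.BP.Defs

/-!
# Module M8c: choice of the colouring of the segments
-/

namespace Pool.Agent.helper8.BP

open Pool.Agent.helper24.BP Finset Classical

/-- number of colourings with prescribed values on two disjoint sets -/
theorem card_colour {r : ℕ} (C C' : Finset (Fin r)) (hd : Disjoint C C') {k : ℕ}
    (hk : C.card + C'.card ≤ k) :
    2 ^ r ≤ 2 ^ k * ((univ : Finset (Fin r → Bool)).filter fun σ =>
      (∀ p ∈ C, σ p = true) ∧ ∀ p ∈ C', σ p = false).card := by
  let G : Finset (Fin r → Bool) := univ.filter fun σ =>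
      (∀ p ∈ C, σ p = true) ∧ ∀ p ∈ C', σ p = false
  let f : (Fin r → Bool) → (↥(C ∪ C') → Bool) × (Fin r → Bool) := fun σ =>
    (fun p => σ p.1, fun p => if p ∈ C then true else if p ∈ C' then false else σ p)
  have h1 : (univ : Finset (Fin r → Bool)).card ≤
      ((univ : Finset (↥(C ∪ C') → Bool)) ×ˢ G).card := by
    apply Finset.card_le_card_of_injOn f
    · intro σ _
      simp only [f, Finset.coe_product, Set.mem_prod, Finset.mem_coe, mem_univ, true_and, G,
        mem_filter]
      refine ⟨fun p hp => by simp [hp], fun p hp => ?_⟩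
      have : p ∉ C := fun h => (Finset.disjoint_left.mp hd h) hp
      simp [hp, this]
    · intro σ _ σ' _ h
      simp only [f, Prod.mk.injEq] at h
      funext p
      by_cases hp : p ∈ C ∪ C'
      · exact congrFun h.1 ⟨p, hp⟩
      · have h2 := congrFun h.2 p
        rw [mem_union, not_or] at hp
        simpa [hp.1, hp.2] using h2
  rw [card_product] at h1
  simp only [card_univ, Fintype.card_fun, Fintype.card_bool, Fintype.card_fin,
    Fintype.card_coe] at h1
  calc 2 ^ r ≤ 2 ^ (C ∪ C').card * G.card := h1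
    _ ≤ 2 ^ k * G.card := by
        apply Nat.mul_le_mul_right
        apply Nat.pow_le_pow_right (by norm_num)
        exact (card_union_le _ _).trans hk

/-- **M8c** -/
theorem exists_sigma {N q : ℕ} {Q : Type} (M : DMach N q Q) {r ℓ K n0 : ℕ} (z : Inp N q)
    (hK : 1 ≤ K) (h1 : r * ℓ ≤ K * N) (h2 : 2 * K ^ 2 ≤ r) (h3 : 2 ^ (4 * K + 3) * n0 = N) :
    ∃ σ : Fin r → Bool, n0 ≤ (RU M ℓ σ z)ᶜ.card ∧ n0 ≤ (RV M ℓ σ z)ᶜ.card := by
  -- segments in which a line / a point is read
  let U : Fin N → Finset (Fin r) := fun i => univ.filter fun p => ∃ s : Fin ℓ,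
    M.query (M.run z (p * ℓ + s)) = some (Sum.inl i)
  let V : Fin N → Finset (Fin r) := fun j => univ.filter fun p => ∃ s : Fin ℓ,
    M.query (M.run z (p * ℓ + s)) = some (Sum.inr j)
  -- lines and points read in a segment
  let A : Fin r → Finset (Fin N) := fun p => univ.filter fun i => p ∈ U i
  let B : Fin r → Finset (Fin N) := fun p => univ.filter fun j => p ∈ V j
  have hAB : ∀ p, (A p).card + (B p).card ≤ ℓ := by
    intro p
    have h : ((A p).map ⟨Sum.inl, Sum.inl_injective⟩ ∪
        (B p).map ⟨Sum.inr, Sum.inr_injective⟩ : Finset (Fin N ⊕ Fin N)).card ≤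
        (univ : Finset (Fin ℓ)).card := by
      have hsub : ((A p).map ⟨Sum.inl, Sum.inl_injective⟩ ∪
        (B p).map ⟨Sum.inr, Sum.inr_injective⟩ : Finset (Fin N ⊕ Fin N)).image some ⊆
        (univ : Finset (Fin ℓ)).image (fun s : Fin ℓ => M.query (M.run z ((p : ℕ) * ℓ + (s : ℕ)))) := by
        intro o ho
        obtain ⟨c, hc, rfl⟩ := Finset.mem_image.mp ho
        rw [Finset.mem_image]
        rcases Finset.mem_union.mp hc with hc | hc
        · obtain ⟨i, hi, rfl⟩ := Finset.mem_map.mp hc
          have hi' := (mem_filter.mp hi).2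
          obtain ⟨s, hs⟩ := (mem_filter.mp hi').2
          exact ⟨s, mem_univ _, hs⟩
        · obtain ⟨i, hi, rfl⟩ := Finset.mem_map.mp hc
          have hi' := (mem_filter.mp hi).2
          obtain ⟨s, hs⟩ := (mem_filter.mp hi').2
          exact ⟨s, mem_univ _, hs⟩
      calc _ = (((A p).map ⟨Sum.inl, Sum.inl_injective⟩ ∪
          (B p).map ⟨Sum.inr, Sum.inr_injective⟩ : Finset (Fin N ⊕ Fin N)).image some).card :=
            (Finset.card_image_of_injective _ (Option.some_injective _)).symm
        _ ≤ _ := (Finset.card_le_card hsub).trans Finset.card_image_le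
    rw [Finset.card_union_of_disjoint, Finset.card_map, Finset.card_map, card_univ,
      Fintype.card_fin] at h
    · exact h
    · rw [Finset.disjoint_left]
      intro c hc hc'
      obtain ⟨i, -, rfl⟩ := Finset.mem_map.mp hc
      obtain ⟨j, -, hj⟩ := Finset.mem_map.mp hc'
      simp at hj
  have hsumU : ∑ i, (U i).card = ∑ p, (A p).card := by
    have := Finset.sum_card_bipartiteAbove_eq_sum_card_bipartiteBelow
      (s := (univ : Finset (Fin N))) (t := (univ : Finset (Fin r))) (fun i p => p ∈ U i)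
    simp only [Finset.bipartiteAbove, Finset.bipartiteBelow] at this
    have e : ∀ i, (univ.filter fun p => p ∈ U i) = U i := by intro i; ext p; simp
    simp only [e] at this
    exact this
  have hsumV : ∑ i, (V i).card = ∑ p, (B p).card := by
    have := Finset.sum_card_bipartiteAbove_eq_sum_card_bipartiteBelow
      (s := (univ : Finset (Fin N))) (t := (univ : Finset (Fin r))) (fun i p => p ∈ V i)
    simp only [Finset.bipartiteAbove, Finset.bipartiteBelow] at this
    have e : ∀ i, (univ.filter fun p => p ∈ V i) = V i := by intro i; ext p; simp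
    simp only [e] at this
    exact this
  have hUle : ∑ i, (U i).card ≤ K * N := by
    rw [hsumU]
    calc ∑ p, (A p).card ≤ ∑ _p : Fin r, ℓ := Finset.sum_le_sum fun p _ => by
          have := hAB p; omega
      _ = r * ℓ := by simp
      _ ≤ K * N := h1
  have hVle : ∑ i, (V i).card ≤ K * N := by
    rw [hsumV]
    calc ∑ p, (B p).card ≤ ∑ _p : Fin r, ℓ := Finset.sum_le_sum fun p _ => by
          have := hAB p; omega
      _ = r * ℓ := by simp
      _ ≤ K * N := h1
  -- most lines (points) are read in few segments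
  have hfew : ∀ W : Fin N → Finset (Fin r), ∑ i, (W i).card ≤ K * N →
      N ≤ 2 * (univ.filter fun i => (W i).card ≤ 2 * K).card := by
    intro W hW
    have hc : (univ.filter fun i => (W i).card ≤ 2 * K).card +
        (univ.filter fun i => ¬ (W i).card ≤ 2 * K).card = N := by
      rw [Finset.card_filter_add_card_filter_not]
      simp
    have hb : (univ.filter fun i => ¬ (W i).card ≤ 2 * K).card * (2 * K) ≤ K * N := by
      calc (univ.filter fun i => ¬ (W i).card ≤ 2 * K).card * (2 * K)
          = ∑ i ∈ univ.filter (fun i => ¬ (W i).card ≤ 2 * K), 2 * K := by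
            rw [Finset.sum_const, smul_eq_mul]
        _ ≤ ∑ i ∈ univ.filter (fun i => ¬ (W i).card ≤ 2 * K), (W i).card :=
            Finset.sum_le_sum fun i hi => by
              have := (mem_filter.mp hi).2
              omega
        _ ≤ ∑ i, (W i).card := Finset.sum_le_sum_of_subset (filter_subset _ _)
        _ ≤ K * N := hW
    have hb2 : (univ.filter fun i => ¬ (W i).card ≤ 2 * K).card * 2 ≤ N := by
      have : K * ((univ.filter fun i => ¬ (W i).card ≤ 2 * K).card * 2) ≤ K * N := by
        calc _ = (univ.filter fun i => ¬ (W i).card ≤ 2 * K).card * (2 * K) := by ring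
          _ ≤ K * N := hb
      exact Nat.le_of_mul_le_mul_left this hK
    omega
  let GU : Finset (Fin N) := univ.filter fun i => (U i).card ≤ 2 * K
  let GV : Finset (Fin N) := univ.filter fun i => (V i).card ≤ 2 * K
  have hGU : N ≤ 2 * GU.card := hfew U hUle
  have hGV : N ≤ 2 * GV.card := hfew V hVle
  let Good : Finset (Fin N × Fin N) := (GU ×ˢ GV).filter fun x => Disjoint (U x.1) (V x.2)
  -- pairs which are read in a common segment
  have hbad : 8 * ((GU ×ˢ GV).filter fun x => ¬ Disjoint (U x.1) (V x.2)).card ≤ N ^ 2 := by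
    have hsub : (GU ×ˢ GV).filter (fun x => ¬ Disjoint (U x.1) (V x.2)) ⊆
        univ.biUnion fun p => A p ×ˢ B p := by
      intro x hx
      obtain ⟨-, hx⟩ := mem_filter.mp hx
      rw [Finset.not_disjoint_iff] at hx
      obtain ⟨p, hp1, hp2⟩ := hx
      rw [Finset.mem_biUnion]
      exact ⟨p, mem_univ _, Finset.mem_product.mpr
        ⟨mem_filter.mpr ⟨mem_univ _, hp1⟩, mem_filter.mpr ⟨mem_univ _, hp2⟩⟩⟩
    have hcard : 4 * ((GU ×ˢ GV).filter fun x => ¬ Disjoint (U x.1) (V x.2)).card ≤
        r * ℓ ^ 2 := by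
      calc 4 * ((GU ×ˢ GV).filter fun x => ¬ Disjoint (U x.1) (V x.2)).card
          ≤ 4 * ∑ p, (A p ×ˢ B p).card :=
            Nat.mul_le_mul_left _ ((Finset.card_le_card hsub).trans Finset.card_biUnion_le)
        _ = ∑ p, 4 * ((A p).card * (B p).card) := by
            rw [Finset.mul_sum]
            simp only [Finset.card_product]
        _ ≤ ∑ _p : Fin r, ℓ ^ 2 := by
            apply Finset.sum_le_sum
            intro p _
            have h := hAB p
            have h4 : 4 * ((A p).card * (B p).card) ≤ ((A p).card + (B p).card) ^ 2 := by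
              nlinarith [sq_nonneg (((A p).card : ℤ) - (B p).card),
                Nat.mul_le_mul (le_refl (A p).card) (le_refl (B p).card),
                four_mul_le_sq_add (A p).card (B p).card]
            exact h4.trans (Nat.pow_le_pow_left h 2)
        _ = r * ℓ ^ 2 := by simp
    have hrl : 2 * (r * ℓ ^ 2) ≤ N ^ 2 := by
      have hK2 : 0 < K ^ 2 := by positivity
      have h5 : K ^ 2 * (2 * (r * ℓ ^ 2)) ≤ K ^ 2 * N ^ 2 := by
        calc K ^ 2 * (2 * (r * ℓ ^ 2)) = (2 * K ^ 2) * (r * ℓ ^ 2) := by ring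
          _ ≤ r * (r * ℓ ^ 2) := Nat.mul_le_mul_right _ h2
          _ = (r * ℓ) ^ 2 := by ring
          _ ≤ (K * N) ^ 2 := Nat.pow_le_pow_left h1 2
          _ = K ^ 2 * N ^ 2 := by ring
      exact Nat.le_of_mul_le_mul_left h5 hK2
    omega
  have hgood : N ^ 2 ≤ 8 * Good.card := by
    have hsum : Good.card + ((GU ×ˢ GV).filter fun x => ¬ Disjoint (U x.1) (V x.2)).card =
        GU.card * GV.card := by
      rw [Finset.card_filter_add_card_filter_not, Finset.card_product]
    have hprod : N ^ 2 ≤ 4 * (GU.card * GV.card) := by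
      calc N ^ 2 = N * N := by ring
        _ ≤ (2 * GU.card) * (2 * GV.card) := Nat.mul_le_mul hGU hGV
        _ = _ := by ring
    omega
  -- averaging
  let ok : (Fin r → Bool) → Fin N × Fin N → Prop := fun σ x =>
    (∀ p ∈ U x.1, σ p = true) ∧ ∀ p ∈ V x.2, σ p = false
  have hcnt : 2 ^ r * Good.card ≤ 2 ^ (4 * K) * ∑ σ : Fin r → Bool, (Good.filter (ok σ)).card := by
    have hswap : ∑ σ : Fin r → Bool, (Good.filter (ok σ)).card =
        ∑ x ∈ Good, ((univ : Finset (Fin r → Bool)).filter fun σ => ok σ x).card := by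
      have := Finset.sum_card_bipartiteAbove_eq_sum_card_bipartiteBelow
        (s := (univ : Finset (Fin r → Bool))) (t := Good) ok
      simpa only [Finset.bipartiteAbove, Finset.bipartiteBelow] using this
    rw [hswap, Finset.mul_sum]
    calc 2 ^ r * Good.card = ∑ _x ∈ Good, 2 ^ r := by rw [Finset.sum_const, smul_eq_mul]; ring
      _ ≤ _ := by
        apply Finset.sum_le_sum
        intro x hx
        obtain ⟨hx1, hx2⟩ := mem_filter.mp hx
        obtain ⟨hx3, hx4⟩ := Finset.mem_product.mp hx1
        have h5 := (mem_filter.mp hx3).2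
        have h6 := (mem_filter.mp hx4).2
        exact card_colour (U x.1) (V x.2) hx2 (by omega)
  have hex : ∃ σ : Fin r → Bool, Good.card ≤ 2 ^ (4 * K) * (Good.filter (ok σ)).card := by
    by_contra hcon
    push Not at hcon
    have hlt : ∑ σ : Fin r → Bool, 2 ^ (4 * K) * (Good.filter (ok σ)).card <
        ∑ _σ : Fin r → Bool, Good.card :=
      Finset.sum_lt_sum_of_nonempty ⟨fun _ => true, mem_univ _⟩ fun σ _ => hcon σ
    rw [← Finset.mul_sum, Finset.sum_const, smul_eq_mul, card_univ, Fintype.card_fun,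
      Fintype.card_bool, Fintype.card_fin] at hlt
    omega
  obtain ⟨σ, hσ⟩ := hex
  have hsub : Good.filter (ok σ) ⊆ (RU M ℓ σ z)ᶜ ×ˢ (RV M ℓ σ z)ᶜ := by
    intro x hx
    obtain ⟨-, hx1, hx2⟩ := mem_filter.mp hx
    rw [Finset.mem_product, mem_compl, mem_compl]
    constructor
    · intro h
      simp only [RU, mem_filter, mem_univ, true_and] at h
      obtain ⟨p, s, hp, hs⟩ := h
      have := hx1 p (mem_filter.mpr ⟨mem_univ _, s, hs⟩)
      rw [this] at hp
      exact Bool.noConfusion hp
    · intro h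
      simp only [RV, mem_filter, mem_univ, true_and] at h
      obtain ⟨p, s, hp, hs⟩ := h
      have := hx2 p (mem_filter.mpr ⟨mem_univ _, s, hs⟩)
      rw [this] at hp
      exact Bool.noConfusion hp
  have hle := Finset.card_le_card hsub
  rw [Finset.card_product] at hle
  have hfin : N * N ≤ 2 ^ (4 * K + 3) * ((RU M ℓ σ z)ᶜ.card * (RV M ℓ σ z)ᶜ.card) := by
    calc N * N = N ^ 2 := by ring
      _ ≤ 8 * Good.card := hgood
      _ ≤ 8 * (2 ^ (4 * K) * (Good.filter (ok σ)).card) := Nat.mul_le_mul_left _ hσ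
      _ ≤ 8 * (2 ^ (4 * K) * ((RU M ℓ σ z)ᶜ.card * (RV M ℓ σ z)ᶜ.card)) :=
          Nat.mul_le_mul_left _ (Nat.mul_le_mul_left _ hle)
      _ = _ := by rw [pow_add]; ring
  have hUN : (RU M ℓ σ z)ᶜ.card ≤ N := (card_le_univ _).trans (by simp)
  have hVN : (RV M ℓ σ z)ᶜ.card ≤ N := (card_le_univ _).trans (by simp)
  refine ⟨σ, ?_, ?_⟩
  · rcases Nat.eq_zero_or_pos N with h0 | hpos
    · have : n0 = 0 := by
        rw [h0] at h3
        rcases Nat.mul_eq_zero.mp h3 with h | h
        · exact absurd h (by positivity)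
        · exact h
      omega
    · have h5 : N * N ≤ (2 ^ (4 * K + 3) * (RU M ℓ σ z)ᶜ.card) * N := by
        calc N * N ≤ 2 ^ (4 * K + 3) * ((RU M ℓ σ z)ᶜ.card * (RV M ℓ σ z)ᶜ.card) := hfin
          _ ≤ 2 ^ (4 * K + 3) * ((RU M ℓ σ z)ᶜ.card * N) :=
              Nat.mul_le_mul_left _ (Nat.mul_le_mul_left _ hVN)
          _ = _ := by ring
      have h6 : 2 ^ (4 * K + 3) * n0 ≤ 2 ^ (4 * K + 3) * (RU M ℓ σ z)ᶜ.card := by
        rw [h3]
        exact Nat.le_of_mul_le_mul_right h5 hpos
      exact Nat.le_of_mul_le_mul_left h6 (by positivity)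
  · rcases Nat.eq_zero_or_pos N with h0 | hpos
    · have : n0 = 0 := by
        rw [h0] at h3
        rcases Nat.mul_eq_zero.mp h3 with h | h
        · exact absurd h (by positivity)
        · exact h
      omega
    · have h5 : N * N ≤ (2 ^ (4 * K + 3) * (RV M ℓ σ z)ᶜ.card) * N := by
        calc N * N ≤ 2 ^ (4 * K + 3) * ((RU M ℓ σ z)ᶜ.card * (RV M ℓ σ z)ᶜ.card) := hfin
          _ ≤ 2 ^ (4 * K + 3) * (N * (RV M ℓ σ z)ᶜ.card) :=
              Nat.mul_le_mul_left _ (Nat.mul_le_mul_right _ hUN)
          _ = _ := by ring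
      have h6 : 2 ^ (4 * K + 3) * n0 ≤ 2 ^ (4 * K + 3) * (RV M ℓ σ z)ᶜ.card := by
        rw [h3]
        exact Nat.le_of_mul_le_mul_right h5 hpos
      exact Nat.le_of_mul_le_mul_left h6 (by positivity)

end Pool.Agent.helper8.BP
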